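import Mathlib

namespace Pool.Agent.H.MP_2afb6f_co

open Finset SimpleGraph Matrix
open scoped Classical

variable {V : Type} [Fintype V]

structure Val (G : SimpleGraph V) (U S T : Finset V) : Prop where
  u : #U ≤ 1
  s : #S ≤ 2
  t : #T ≤ 3
  us : Disjoint U S
  ut : Disjoint U T
  st : Disjoint S T
  adj : ∀ a ∈ U, ∀ b, G.Adj a b → b ∉ S ∧ b ∉ T

def red (G : SimpleGraph V) (U S T : Finset V) : SimpleGraph V where
  Adj a b := G.Adj a b ∧ a ∉ U ∧ b ∉ U ∧ ¬(a ∈ S ∧ b ∈ T) ∧ ¬(a ∈ T ∧ b ∈ S)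
  symm := ⟨fun _ _ h => ⟨h.1.symm, h.2.2.1, h.2.1, fun k => h.2.2.2.2 k.symm,
    fun k => h.2.2.2.1 k.symm⟩⟩
  loopless := ⟨fun _ h => h.1.ne rfl⟩

def Tri (G : SimpleGraph V) (a b c : V) : Prop := G.Adj a b ∧ G.Adj a c ∧ G.Adj b c

def P (G : SimpleGraph V) : Prop := ∃ U S T, Val G U S T ∧ ∀ a b c, ¬ Tri (red G U S T) a b c

lemma P.mono {W : Type} [Fintype W] {G : SimpleGraph V} {H : SimpleGraph W} (h : P G)
    (c : H.IsContained G) : P H := by
  obtain ⟨U, S, T, v, t⟩ := h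
  obtain ⟨f⟩ := c
  have k : ∀ X : Finset V, #{a | f a ∈ X} ≤ #X := fun X =>
    card_le_card_of_injOn f (by simp [Set.MapsTo]) f.injective.injOn
  have d : ∀ X Y : Finset V, Disjoint X Y →
      Disjoint ({a | f a ∈ X} : Finset W) ({a | f a ∈ Y} : Finset W) :=
    fun X Y h => disjoint_filter.2 fun a _ k => Finset.disjoint_left.1 h k
  have r : ∀ a b, (red H {a | f a ∈ U} {a | f a ∈ S} {a | f a ∈ T}).Adj a b →
      (red G U S T).Adj (f a) (f b) := fun a b h => ⟨f.toHom.map_adj h.1, by simpa using h.2⟩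
  exact ⟨_, _, _, ⟨(k U).trans v.u, (k S).trans v.s, (k T).trans v.t, d _ _ v.us, d _ _ v.ut,
    d _ _ v.st, fun a ha b h => by simpa using v.adj (f a) (by simpa using ha) _ (f.toHom.map_adj h)⟩,
    fun a b c h => t _ _ _ ⟨r _ _ h.1, r _ _ h.2.1, r _ _ h.2.2⟩⟩

lemma chain (i : ℕ) : ∃ b : ℕ, ∀ (V : Type) [Fintype V] (G : SimpleGraph V), ¬ P G →
    ∃ W : Finset V, #W ≤ b ∧ ∀ U S T, Val G U S T → (∃ a ∈ W, ∃ b ∈ W, ∃ c ∈ W,
      Tri (red G U S T) a b c) ∨ i ≤ #((U ∪ S ∪ T) ∩ W) := by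
  induction i with
  | zero => exact ⟨0, fun V _ G _ => ⟨∅, le_rfl, fun _ _ _ _ => Or.inr (Nat.zero_le _)⟩⟩
  | succ i ih =>
    obtain ⟨b, ih⟩ := ih
    refine ⟨b + 2 ^ b * (2 ^ b * 2 ^ b) * 3, fun V _ G hG => ?_⟩
    obtain ⟨W, h1, h2⟩ := ih V G hG
    have : ∀ z : Finset V × Finset V × Finset V, ∃ Z : Finset V, #Z ≤ 3 ∧
        (Val G z.1 z.2.1 z.2.2 → ∃ a ∈ Z, ∃ b ∈ Z, ∃ c ∈ Z, Tri (red G z.1 z.2.1 z.2.2) a b c) :=
      fun z => by
        by_cases v : Val G z.1 z.2.1 z.2.2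
        · simp only [P, not_exists, not_and, not_forall, not_not] at hG
          obtain ⟨a, b, c, h⟩ := hG _ _ _ v
          exact ⟨{a, b, c}, card_le_three, fun _ => ⟨a, by simp, b, by simp, c, by simp, h⟩⟩
        · exact ⟨∅, by simp, fun h => absurd h v⟩
    choose Z z1 z2 using this
    let W' := W ∪ (W.powerset ×ˢ W.powerset ×ˢ W.powerset).biUnion Z
    refine ⟨W', (card_union_le _ _).trans (add_le_add h1 ((card_biUnion_le_card_mul _ _ 3
      fun z _ => z1 z).trans ?_)), fun U S T v => ?_⟩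
    · simp only [card_product, card_powerset]
      gcongr <;> norm_num
    rcases h2 U S T v with ⟨a, ha, b, hb, c, hc, h⟩ | h
    · exact Or.inl ⟨a, mem_union_left _ ha, b, mem_union_left _ hb, c, mem_union_left _ hc, h⟩
    by_cases e : (U ∪ S ∪ T) ∩ W' ⊆ (U ∪ S ∪ T) ∩ W
    swap
    · exact Or.inr (h.trans_lt (card_lt_card ⟨inter_subset_inter_left subset_union_left, e⟩))
    have i : ∀ {X Y : Finset V}, X ∩ Y ⊆ X := @inter_subset_left V _
    obtain ⟨a, ha, b, hb, c, hc, t⟩ := z2 (U ∩ W, S ∩ W, T ∩ W) ⟨(card_le_card i).trans v.u,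
      (card_le_card i).trans v.s, (card_le_card i).trans v.t, v.us.mono i i, v.ut.mono i i,
      v.st.mono i i, fun a ha b h => (v.adj a (i ha) b h).imp (mt (i ·)) (mt (i ·))⟩
    have s : Z (U ∩ W, S ∩ W, T ∩ W) ⊆ W' :=
      (subset_biUnion_of_mem Z (by simp)).trans subset_union_right
    have r : ∀ a ∈ W', ∀ b ∈ W', (red G (U ∩ W) (S ∩ W) (T ∩ W)).Adj a b →
        (red G U S T).Adj a b := fun a ha b hb h => by
      have e1 := @e a
      have e2 := @e b
      simp only [red, mem_inter, mem_union (s := U ∪ S), mem_union (s := U), ha, hb] at h e1 e2 ⊢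
      tauto
    exact Or.inl ⟨a, s ha, b, s hb, c, s hc, r _ (s ha) _ (s hb) t.1, r _ (s ha) _ (s hc) t.2.1,
      r _ (s hb) _ (s hc) t.2.2⟩

lemma small : ∃ K : ℕ, 12 ≤ K ∧ ∀ (V : Type) [Fintype V] (G : SimpleGraph V), ¬ P G →
    ∃ k ≤ K, ∃ H : SimpleGraph (Fin k), ¬ P H ∧ H.IsContained G := by
  obtain ⟨b, h⟩ := chain 7
  refine ⟨b + 12, by omega, fun V _ G hG => ?_⟩
  obtain ⟨W, h1, h2⟩ := h V G hG
  let f : Fin #W ↪ V := W.equivFin.symm.toEmbedding.trans (Function.Embedding.subtype _)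
  have hf : ∀ a ∈ W, ∃ i, f i = a := fun a ha => ⟨W.equivFin ⟨a, ha⟩, by simp [f]⟩
  refine ⟨#W, by omega, G.comap f, fun ⟨U, S, T, v, t⟩ => ?_, ⟨(Embedding.comap f G).toCopy⟩⟩
  have w : ∀ a ∈ U.map f, ∀ b, G.Adj a b → b ∉ S.map f ∧ b ∉ T.map f := by
    simp only [mem_map]
    rintro _ ⟨a, ha, rfl⟩ b h
    constructor <;> rintro ⟨b, hb, rfl⟩
    exacts [(v.adj a ha b h).1 hb, (v.adj a ha b h).2 hb]
  rcases h2 (U.map f) (S.map f) (T.map f) ⟨by simpa using v.u, by simpa using v.s,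
    by simpa using v.t, by simpa using v.us, by simpa using v.ut, by simpa using v.st, w⟩ with
    ⟨a, ha, b, hb, c, hc, h⟩ | h
  · obtain ⟨a, rfl⟩ := hf a ha
    obtain ⟨b, rfl⟩ := hf b hb
    obtain ⟨c, rfl⟩ := hf c hc
    exact t a b c (by simpa only [Tri, red, mem_map', comap_adj] using h)
  · have := card_le_card (@inter_subset_left _ _ (U.map f ∪ S.map f ∪ T.map f) W)
    have := card_union_le (U.map f ∪ S.map f) (T.map f)
    have := card_union_le (U.map f) (S.map f)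
    have := v.u
    have := v.s
    have := v.t
    simp only [card_map] at *
    omega

lemma deg_le {G : SimpleGraph V} {U S T : Finset V} (v : Val G U S T) (a : V) :
    G.degree a ≤ (red G U S T).degree a + (if a ∈ U then #(U ∪ S ∪ T)ᶜ else 0) +
      (if a ∈ S then #T else 0) + (if a ∈ T then #S else 0) +
      (if a ∈ (U ∪ S ∪ T)ᶜ then #U else 0) := by
  have d1 := @disjoint_left.1 v.us a
  have d2 := @disjoint_left.1 v.ut a
  have d3 := @disjoint_left.1 v.st a
  have k : ∀ X : Finset V, (∀ b, G.Adj a b → (red G U S T).Adj a b ∨ b ∈ X) →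
      G.degree a ≤ (red G U S T).degree a + #X := fun X h => by
    rw [← card_neighborFinset_eq_degree, ← card_neighborFinset_eq_degree]
    exact (card_le_card fun b hb => by simpa using h b (by simpa using hb)).trans
      (card_union_le _ X)
  have m : ∀ b, G.Adj a b → b ∈ U → a ∉ S ∧ a ∉ T := fun b h hb => v.adj b hb a h.symm
  by_cases h1 : a ∈ U
  · have := k (U ∪ S ∪ T)ᶜ fun b h => Or.inr (by
      have := v.adj a h1 b h
      have : b ∉ U := fun hb => h.ne (card_le_one.1 v.u a h1 b hb)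
      simp [*])
    rw [if_pos h1]; omega
  by_cases h2 : a ∈ S
  · have := k T fun b h => by have := m b h; simp only [red]; tauto
    rw [if_pos h2]; omega
  by_cases h3 : a ∈ T
  · have := k S fun b h => by have := m b h; simp only [red]; tauto
    rw [if_pos h3]; omega
  · have := k U fun b h => by simp only [red]; tauto
    rw [if_pos (show a ∈ (U ∪ S ∪ T)ᶜ by simp [*])]; omega

lemma mantel [Nonempty V] {G : SimpleGraph V} (U : Finset V) (h : ∀ a b c, ¬ Tri G a b c)
    (hU : ∀ a b, G.Adj a b → b ∉ U) : ∃ D q : ℕ, (∀ a, G.degree a ≤ D) ∧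
      D + q + #U = Fintype.card V ∧ ∑ a, G.degree a ≤ 2 * (D * q) := by
  obtain ⟨v, -, hv⟩ := exists_max_image univ (fun a => G.degree a) univ_nonempty
  have d : Disjoint (G.neighborFinset v) U := disjoint_left.2 fun a ha => hU v a (by simpa using ha)
  refine ⟨G.degree v, #(G.neighborFinset v ∪ U)ᶜ, fun a => hv a (mem_univ _), ?_, ?_⟩
  · have := card_add_card_compl (G.neighborFinset v ∪ U)
    rw [card_union_of_disjoint d, card_neighborFinset_eq_degree] at this
    omega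
  rw [← sum_add_sum_compl (G.neighborFinset v ∪ U), sum_union d]
  have a1 := sum_le_card_nsmul (G.neighborFinset v) (fun a => G.degree a)
    #(G.neighborFinset v ∪ U)ᶜ fun a ha => card_le_card fun b hb => by
      simp only [mem_neighborFinset, mem_compl, mem_union, not_or] at *
      exact ⟨fun k => h v a b ⟨ha, k, hb⟩, hU a b hb⟩
  have a2 := sum_le_card_nsmul (G.neighborFinset v ∪ U)ᶜ (fun a => G.degree a) _
    fun a _ => hv a (mem_univ _)
  have a3 : ∑ a ∈ U, G.degree a = 0 := sum_eq_zero fun a ha => by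
    rw [← card_neighborFinset_eq_degree, card_eq_zero]
    exact eq_empty_of_forall_notMem fun b hb => hU b a (by simpa [adj_comm] using hb) ha
  rw [card_neighborFinset_eq_degree, smul_eq_mul] at a1
  rw [smul_eq_mul, mul_comm] at a2
  omega

lemma schur (G : SimpleGraph V) (w : V → ℝ) (μ : ℝ) (hw : ∀ a, 0 < w a)
    (h : ∀ a, ∑ b ∈ G.neighborFinset a, w b ≤ μ * w a) (y : V → ℝ) :
    y ⬝ᵥ (G.adjMatrix ℝ *ᵥ y) ≤ μ * (y ⬝ᵥ y) := by
  have e : ∀ f : V → V → ℝ, ∑ a, ∑ b ∈ G.neighborFinset a, f a b =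
      ∑ a, ∑ b ∈ G.neighborFinset a, f b a := fun f =>
    sum_comm' fun a b => by simp [adj_comm]
  have a1 : 2 * (y ⬝ᵥ (G.adjMatrix ℝ *ᵥ y)) ≤ ∑ a, ∑ b ∈ G.neighborFinset a, y a ^ 2 / w a * w b +
      ∑ a, ∑ b ∈ G.neighborFinset a, y b ^ 2 / w b * w a := by
    simp only [dotProduct, adjMatrix_mulVec_apply, mul_sum, ← sum_add_distrib]
    refine sum_le_sum fun a _ => sum_le_sum fun b _ => ?_
    have := hw a
    have := hw b
    rw [← sub_nonneg, show y a ^ 2 / w a * w b + y b ^ 2 / w b * w a - 2 * (y a * y b) =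
      (y a * w b - y b * w a) ^ 2 / (w a * w b) by field_simp; ring]
    positivity
  rw [← e fun a b => y a ^ 2 / w a * w b] at a1
  have a2 : ∑ a, ∑ b ∈ G.neighborFinset a, y a ^ 2 / w a * w b ≤ μ * (y ⬝ᵥ y) := by
    simp only [dotProduct, ← mul_sum]
    rw [mul_sum]
    refine sum_le_sum fun a _ => ?_
    have := hw a
    refine (mul_le_mul_of_nonneg_left (h a) (by positivity)).trans (le_of_eq ?_)
    field_simp
  linarith

theorem upper {m : ℕ} (hm : 100 ≤ m) (hV : Fintype.card V = 2 * m + 1) {G : SimpleGraph V}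
    (h : P G) (he : 2 * (m * m + 2 * m + 1) ≤ ∑ a, G.degree a) (y : V → ℝ) :
    y ⬝ᵥ (G.adjMatrix ℝ *ᵥ y) ≤ (m + 2 - 5 / m) * (y ⬝ᵥ y) := by
  obtain ⟨U, S, T, v, t⟩ := h
  have : Nonempty V := Fintype.card_pos_iff.1 (by omega)
  obtain ⟨D, q, d1, d2, d3⟩ := mantel U t fun a b h => h.2.2.1
  have d4 := sum_le_sum fun a (_ : a ∈ univ) => deg_le v a
  have d5 := card_add_card_compl (U ∪ S ∪ T)
  rw [card_union_of_disjoint (disjoint_union_left.2 ⟨v.ut, v.st⟩),
    card_union_of_disjoint v.us] at d5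
  simp only [sum_add_distrib, sum_ite_mem, univ_inter, sum_const, smul_eq_mul, hV] at d2 d4 d5
  have d6 := deg_le v
  have hu := v.u
  have hs := v.s
  have ht := v.t
  obtain ⟨e1, e2, e3, e4⟩ : #U = 1 ∧ #S = 2 ∧ #T = 3 ∧ D ≤ m := by
    generalize #U = u at *
    generalize #S = s at *
    generalize #T = t at *
    generalize #(U ∪ S ∪ T)ᶜ = r at *
    have f1 : D + q = 2 * m → D * q ≤ m * m ∧ (m < D → D * q < m * m) := fun h => by
      refine ⟨by nlinarith [sq_nonneg ((D : ℤ) - m)], fun _ => by nlinarith⟩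
    have f2 : D + q = 2 * m + 1 → D * q ≤ m * m + m := fun h => by
      rcases le_or_gt D m with c | c <;> nlinarith
    interval_cases u <;> interval_cases s <;> interval_cases t <;> omega
  have e5 : #(U ∪ S ∪ T)ᶜ + 5 = 2 * m := by omega
  have m0 : (100 : ℝ) ≤ m := by exact_mod_cast hm
  obtain ⟨x, hx⟩ : ∃ x : ℝ, x * m = 1 := ⟨1 / m, by field_simp⟩
  have x0 : 0 < x := by nlinarith
  have x1 : x ≤ 1 / 100 := by nlinarith
  rw [show 5 / (m : ℝ) = 5 * x by field_simp; linarith]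
  refine schur G (fun a => 1 + (if a ∈ U then 1 - 8 * x else 0) + (if a ∈ S then 6 / 5 * x else 0) +
    if a ∈ T then x / 5 else 0) _ (fun a => by split_ifs <;> linarith) (fun a => ?_) y
  simp only [sum_add_distrib, sum_ite_mem, sum_const, nsmul_eq_mul, card_neighborFinset_eq_degree]
  have c : ∀ X : Finset V, (#(G.neighborFinset a ∩ X) : ℝ) ≤ #X := fun X => by
    exact_mod_cast card_le_card inter_subset_right
  have c1 := c U
  have c2 := mul_le_mul_of_nonneg_right (c S) x0.le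
  have c3 := mul_le_mul_of_nonneg_right (c T) x0.le
  have c4 : a ∈ U ∪ S ∪ T → (#(G.neighborFinset a ∩ U) : ℝ) = 0 := fun h => by
    rw [Nat.cast_eq_zero, card_eq_zero]
    refine eq_empty_of_forall_notMem fun b hb => ?_
    simp only [mem_inter, mem_neighborFinset, mem_union] at hb h
    have := v.adj b hb.2 a hb.1.symm
    have := fun k => hb.1.ne (card_le_one.1 v.u a k b hb.2)
    tauto
  have g1 := @disjoint_left.1 v.us a
  have g2 := @disjoint_left.1 v.ut a
  have g3 := @disjoint_left.1 v.st a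
  have g4 := d6 a
  have g5 := d1 a
  rw [e1, e2, e3] at *
  push_cast at c1 c2 c3
  by_cases h1 : a ∈ U
  · have z : (red G U S T).degree a = 0 := by
      rw [← card_neighborFinset_eq_degree, card_eq_zero]
      exact eq_empty_of_forall_notMem fun b hb => ((mem_neighborFinset _ _ _).1 hb).2.1 h1
    simp only [h1, g1 h1, g2 h1, mem_compl, mem_union, true_or, if_true, if_false, not_true] at *
    have : (G.degree a : ℝ) + 5 ≤ 2 * m := by exact_mod_cast (by omega : G.degree a + 5 ≤ 2 * m)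
    rw [c4 trivial]; nlinarith
  by_cases h2 : a ∈ S
  · simp only [h1, h2, g3 h2, mem_compl, mem_union, true_or, or_true, if_true, if_false,
      not_true] at *
    have : (G.degree a : ℝ) ≤ m + 3 := by exact_mod_cast (by omega : G.degree a ≤ m + 3)
    rw [c4 trivial]; nlinarith
  by_cases h3 : a ∈ T
  · simp only [h1, h2, h3, mem_compl, mem_union, or_true, if_true, if_false, not_true] at *
    have : (G.degree a : ℝ) ≤ m + 2 := by exact_mod_cast (by omega : G.degree a ≤ m + 2)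
    rw [c4 trivial]; nlinarith
  · simp only [h1, h2, h3, mem_compl, mem_union, or_false, if_true, if_false, not_false_iff] at *
    have : (G.degree a : ℝ) ≤ m + 1 := by exact_mod_cast (by omega : G.degree a ≤ m + 1)
    nlinarith

end Pool.Agent.H.MP_2afb6f_co
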