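import Mathlib
import Pool.Agent.H.MP_2afb6f_co.A

namespace Pool.Agent.H.MP_2afb6f_co

open Finset SimpleGraph Matrix
open scoped Classical

lemma cnt {k : ℕ} (p : Fin k → Prop) [DecidablePred p] (s : Finset ℕ) (h : ∀ x ∈ s, x < k)
    (e : ∀ a : Fin k, p a ↔ a.val ∈ s) : #{a | p a} = #s :=
  card_nbij Fin.val (fun a ha => (e a).1 (by simpa using ha)) Fin.val_injective.injOn
    fun x hx => ⟨⟨x, h x hx⟩, by simpa using (e _).2 hx, rfl⟩

def X0 (m : ℕ) : SimpleGraph (Fin (2 * m + 1)) where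
  Adj a b := a.val ≠ b.val ∧ (a.val = 2 * m ∨ b.val = 2 * m ∨ (a.val < m ∧ m ≤ b.val) ∨
    (b.val < m ∧ m ≤ a.val))
  symm := ⟨fun _ _ h => by omega⟩
  loopless := ⟨fun _ h => h.1 rfl⟩

def Y0 (m : ℕ) : SimpleGraph (Fin (2 * m + 1)) where
  Adj a b := a.val ≠ b.val ∧ ((a.val = 2 * m ∧ 5 ≤ b.val) ∨ (b.val = 2 * m ∧ 5 ≤ a.val) ∨
    (a.val < m ∧ m ≤ b.val ∧ b.val < 2 * m) ∨ (b.val < m ∧ m ≤ a.val ∧ a.val < 2 * m) ∨
    (a.val < 2 ∧ 2 ≤ b.val ∧ b.val < 5) ∨ (b.val < 2 ∧ 2 ≤ a.val ∧ a.val < 5))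
  symm := ⟨fun _ _ h => by omega⟩
  loopless := ⟨fun _ h => h.1 rfl⟩

lemma P_X (m : ℕ) : P (X0 m) :=
  ⟨{Fin.last _}, ∅, ∅, ⟨by simp, by simp, by simp, by simp, by simp, by simp, by simp⟩,
    fun a b c h => by
      simp only [Tri, red, X0, mem_singleton, Fin.ext_iff, Fin.val_last] at h
      omega⟩

lemma P_Y {m : ℕ} (hm : 5 ≤ m) : P (Y0 m) := by
  refine ⟨{Fin.last _}, univ.filter fun a => a.val < 2,
    univ.filter fun a => 2 ≤ a.val ∧ a.val < 5, ⟨by simp,
    (cnt _ (range 2) (by simp; omega) (by simp)).trans_le (by simp),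
    (cnt _ (Ico 2 5) (by simp; omega) (by simp)).trans_le (by simp), by simp; omega,
    by simp; omega, disjoint_filter.2 fun a _ => by omega, fun a ha b h => ?_⟩, fun a b c h => ?_⟩
  · simp only [Y0, mem_singleton, Fin.ext_iff, Fin.val_last, mem_filter, mem_univ, true_and] at *
    omega
  · simp only [Tri, red, Y0, mem_singleton, Fin.ext_iff, Fin.val_last, mem_filter, mem_univ,
      true_and] at h
    omega

lemma deg_Y {m : ℕ} (hm : 5 ≤ m) : 2 * (m * m + 2 * m + 1) ≤ ∑ a, (Y0 m).degree a := by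
  obtain ⟨m, rfl⟩ := Nat.exists_eq_add_of_le hm
  have : ∀ a, (fun x : ℕ => if x < 2 then m + 8 else if x < 5 then m + 7 else
      if x < 2 * (5 + m) then m + 6 else 2 * m + 5) a.val = (Y0 (5 + m)).degree a := fun a => by
    have := a.2
    rw [← card_neighborFinset_eq_degree, neighborFinset_eq_filter]
    beta_reduce
    split_ifs
    · rw [cnt _ (Ico 2 5 ∪ Ico (5 + m) (2 * (5 + m))) (by simp; omega)
        (by simp only [Y0, mem_union, mem_Ico]; omega),
        card_union_of_disjoint (by simp [Finset.disjoint_left]; omega)]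
      simp; omega
    · rw [cnt _ (Ico 0 2 ∪ Ico (5 + m) (2 * (5 + m))) (by simp; omega)
        (by simp only [Y0, mem_union, mem_Ico]; omega),
        card_union_of_disjoint (by simp [Finset.disjoint_left]; omega)]
      simp; omega
    · by_cases h : a.val < 5 + m
      · rw [cnt _ (Ico (5 + m) (2 * (5 + m) + 1)) (by simp) (by simp only [Y0, mem_Ico]; omega)]
        simp; omega
      · rw [cnt _ (insert (2 * (5 + m)) (range (5 + m))) (by simp; omega)
          (by simp only [Y0, mem_insert, mem_range]; omega), card_insert_of_notMem (by simp)]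
        simp; omega
    · rw [cnt _ (Ico 5 (2 * (5 + m))) (by simp; omega) (by simp only [Y0, mem_Ico]; omega)]
      simp; omega
  rw [← sum_congr rfl fun a _ => this a, Fin.sum_univ_eq_sum_range (fun x : ℕ => if x < 2 then m + 8
    else if x < 5 then m + 7 else if x < 2 * (5 + m) then m + 6 else 2 * m + 5), sum_range_succ,
    show 2 * (5 + m) = 5 + (2 * m + 5) by omega, sum_range_add,
    sum_congr rfl (s₁ := range (2 * m + 5)) (g := fun _ => m + 6) fun x hx => by
      simp only [mem_range] at hx; rw [if_neg (by omega), if_neg (by omega), if_pos (by omega)]]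
  simp [sum_range_succ]; rw [if_neg (by omega)]; nlinarith

lemma ray_X (m : ℕ) : ∃ x : Fin (2 * m + 1) → ℝ, x ⬝ᵥ x = 2 * m + 4 ∧
    x ⬝ᵥ ((X0 m).adjMatrix ℝ *ᵥ x) = 2 * m * m + 8 * m := by
  refine ⟨fun a => 1 + if a = Fin.last _ then 1 else 0, ?_, ?_⟩
  · simp [dotProduct, Fin.sum_univ_castSucc, (Fin.castSucc_lt_last _).ne]; ring
  have : ∀ a, (X0 m).degree a = if a = Fin.last _ then 2 * m else m + 1 := fun a => by
    have := a.2
    rw [← card_neighborFinset_eq_degree, neighborFinset_eq_filter]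
    simp only [Fin.ext_iff, Fin.val_last]
    split_ifs
    · rw [cnt _ (range (2 * m)) (by simp; omega) (by simp only [X0, mem_range]; omega), card_range]
    · by_cases h : a.val < m
      · rw [cnt _ (Ico m (2 * m + 1)) (by simp) (by simp only [X0, mem_Ico]; omega)]
        simp; omega
      · rw [cnt _ (insert (2 * m) (range m)) (by simp; omega)
          (by simp only [X0, mem_insert, mem_range]; omega), card_insert_of_notMem (by simp; omega)]
        simp
  have e : ∀ a, (X0 m).Adj a (Fin.last _) ↔ a ≠ Fin.last _ := fun a => by simp [X0, Fin.ext_iff]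
  simp only [dotProduct, adjMatrix_mulVec_apply, sum_add_distrib, sum_const, sum_ite_eq',
    card_neighborFinset_eq_degree, this, mem_neighborFinset, e]
  simp [Fin.sum_univ_castSucc, (Fin.castSucc_lt_last _).ne]; ring

def H0 : SimpleGraph (Fin 12) := fromRel fun a b => a.val / 3 = b.val / 3

lemma nP_H : ¬ P H0 := by
  rintro ⟨U, S, T, v, t⟩
  have : ∀ i : Fin 4, ∃ a ∈ U ∪ S, a.val / 3 = i := fun i => by
    by_contra h
    have k : ∀ a b : Fin 12, a.val / 3 = i → b.val / 3 = i → a ≠ b → (red H0 U S T).Adj a b :=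
      fun a b ha hb n => by
        have h1 := fun k => h ⟨a, k, ha⟩
        have h2 := fun k => h ⟨b, k, hb⟩
        simp only [mem_union, imp_false, not_or] at h1 h2
        exact ⟨⟨n, Or.inl (ha.trans hb.symm)⟩, h1.1, h2.1, fun k => h1.2 k.1, fun k => h2.2 k.2⟩
    refine t ⟨3 * i, by omega⟩ ⟨3 * i + 1, by omega⟩ ⟨3 * i + 2, by omega⟩ ⟨?_, ?_, ?_⟩ <;>
      exact k _ _ (by simp only; omega) (by simp only; omega) (by simp [Fin.ext_iff])
  choose f h1 h2 using this
  have := card_le_card_of_injOn (s := univ) f (fun i _ => h1 i) fun i _ j _ e =>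
    Fin.ext (by rw [← h2, e, h2])
  have := card_union_le U S
  have := v.u
  have := v.s
  simp only [card_univ, Fintype.card_fin] at *
  omega

lemma chi {V : Type} [Fintype V] {H : SimpleGraph V} (h : ¬ P H) :
    ((2 + 1 : ℕ) : ℕ∞) ≤ H.chromaticNumber := by
  by_contra c
  obtain ⟨C⟩ : H.Colorable 2 := chromaticNumber_le_iff_colorable.1
    (Order.le_of_lt_add_one (lt_of_lt_of_eq (not_le.1 c) (by norm_num)))
  refine h ⟨∅, ∅, ∅, ⟨by simp, by simp, by simp, by simp, by simp, by simp, by simp⟩,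
    fun a b c t => ?_⟩
  have := C.valid t.1.1
  have := C.valid t.2.1.1
  have := C.valid t.2.2.1
  omega

lemma ex_max {n : ℕ} (Q : SimpleGraph (Fin n) → Prop) (h : ∃ G, Q G) (hn : 0 < n) :
    ∃ G, Q G ∧ ∃ y : Fin n → ℝ, y ⬝ᵥ y = 1 ∧ ∀ G', Q G' → ∀ x : Fin n → ℝ,
      x ⬝ᵥ (G'.adjMatrix ℝ *ᵥ x) ≤ (y ⬝ᵥ (G.adjMatrix ℝ *ᵥ y)) * (x ⬝ᵥ x) := by
  have c : IsCompact {y : Fin n → ℝ | y ⬝ᵥ y = 1} := Metric.isCompact_of_isClosed_isBounded
    (isClosed_eq (by fun_prop) continuous_const) ((Metric.isBounded_closedBall (x := 0)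
      (r := 1)).subset fun y hy => by
        rw [mem_closedBall_zero_iff, pi_norm_le_iff_of_nonneg zero_le_one]
        intro i
        have := single_le_sum (f := fun i => y i * y i) (fun i _ => mul_self_nonneg _) (mem_univ i)
        exact abs_le_one_iff_mul_self_le_one.2 (this.trans_eq hy))
  choose y h1 h2 using fun G : SimpleGraph (Fin n) => c.exists_isMaxOn
    (f := fun y => y ⬝ᵥ (G.adjMatrix ℝ *ᵥ y)) ⟨Pi.single ⟨0, hn⟩ 1, by simp⟩ (by fun_prop)
  obtain ⟨G, hG, m⟩ := Set.exists_max_image {G | Q G} (fun G => y G ⬝ᵥ (G.adjMatrix ℝ *ᵥ y G))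
    (Set.toFinite _) h
  refine ⟨G, hG, y G, h1 G, fun G' hG' x => ?_⟩
  by_cases hx : x = 0
  · simp [hx]
  have p : 0 < x ⬝ᵥ x := lt_of_le_of_ne (sum_nonneg fun i _ => mul_self_nonneg _)
    fun e => hx (dotProduct_self_eq_zero.1 e.symm)
  have s := Real.mul_self_sqrt p.le
  have s0 := Real.sqrt_pos.2 p
  have := (h2 G' (a := (√(x ⬝ᵥ x))⁻¹ • x) (by
    simp only [Set.mem_setOf_eq, smul_dotProduct, dotProduct_smul, smul_eq_mul]
    field_simp; linarith)).trans (m G' hG')
  simp only [mulVec_smul, smul_dotProduct, dotProduct_smul, smul_eq_mul] at this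
  rwa [← mul_assoc, ← mul_inv, s, inv_mul_le_iff₀ p, mul_comm] at this

end Pool.Agent.H.MP_2afb6f_co
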